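import Pool.Agent.N874.PP.Lat

/-!
# Project PP: the characteristic polynomial of the multiplication by `θ` (`S_CHI`)
-/

set_option autoImplicit false
set_option linter.all false

open Polynomial Matrix

namespace Pool.Agent.N279.PP

open Pool.Agent.N874.PP

section co

variable {k K L : Type} [Field k] [Field K] [Algebra k[X] K]
  [Field L] [Algebra K L] [Algebra k[X] L] [IsScalarTower k[X] K L] {a b : k[X]} {θ : L}

theorem repr_eq (h : IsCub K a b θ) (r s t : K) :
    h.basis.repr (algebraMap K L r + algebraMap K L s * θ + algebraMap K L t * θ ^ 2) =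
      Finsupp.single 0 r + Finsupp.single 1 s + Finsupp.single 2 t := by
  have e : algebraMap K L r + algebraMap K L s * θ + algebraMap K L t * θ ^ 2 =
      r • h.basis 0 + s • h.basis 1 + t • h.basis 2 := by
    rw [h.basis_apply, h.basis_apply, h.basis_apply]
    simp [Pool.Agent.N874.PP.vec, Algebra.smul_def]
  rw [e, map_add, map_add, map_smul, map_smul, map_smul, Module.Basis.repr_self,
    Module.Basis.repr_self, Module.Basis.repr_self]
  simp

theorem co_theta (h : IsCub K a b θ) (z : L) : h.co 2 (θ * z) = h.co 1 z := by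
  obtain ⟨r, s, t, rfl⟩ := h.gen z
  have hroot := h.root
  rw [IsScalarTower.algebraMap_apply k[X] K L, IsScalarTower.algebraMap_apply k[X] K L] at hroot
  have e : θ * (algebraMap K L r + algebraMap K L s * θ + algebraMap K L t * θ ^ 2) =
      algebraMap K L (- t * algebraMap k[X] K b) + algebraMap K L (r - t * algebraMap k[X] K a) * θ +
        algebraMap K L s * θ ^ 2 := by
    simp only [map_mul, map_sub, map_neg]
    linear_combination algebraMap K L t * hroot
  rw [e]
  simp only [IsCub.co, Module.Basis.coord_apply, repr_eq]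
  simp

theorem det_one (h : IsCub K a b θ) (x : K) :
    Algebra.norm K (algebraMap K L x - θ) =
      x ^ 3 + algebraMap k[X] K a * x + algebraMap k[X] K b := by
  have hroot := h.root
  rw [IsScalarTower.algebraMap_apply k[X] K L, IsScalarTower.algebraMap_apply k[X] K L] at hroot
  rw [Algebra.norm_eq_matrix_det h.basis, Matrix.det_fin_three]
  have c0 : h.basis.repr ((algebraMap K L x - θ) * h.basis 0) =
      Finsupp.single 0 x + Finsupp.single 1 (-1) + Finsupp.single 2 0 := by
    rw [← repr_eq h, h.basis_apply]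
    congr 1
    simp [Pool.Agent.N874.PP.vec]; ring
  have c1 : h.basis.repr ((algebraMap K L x - θ) * h.basis 1) =
      Finsupp.single 0 0 + Finsupp.single 1 x + Finsupp.single 2 (-1) := by
    rw [← repr_eq h, h.basis_apply]
    congr 1
    simp [Pool.Agent.N874.PP.vec]; ring
  have c2 : h.basis.repr ((algebraMap K L x - θ) * h.basis 2) =
      Finsupp.single 0 (algebraMap k[X] K b) + Finsupp.single 1 (algebraMap k[X] K a) +
        Finsupp.single 2 x := by
    rw [← repr_eq h, h.basis_apply]
    congr 1
    simp [Pool.Agent.N874.PP.vec]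
    linear_combination -hroot
  simp only [Algebra.leftMulMatrix_eq_repr_mul, c0, c1, c2]
  simp
  ring

end co

/-- **The characteristic polynomial of the multiplication by `θ` in a normalised basis.** -/
theorem chi : S_CHI := by
  intro k K L _ _ _ _ _ _ _ _ a b θ h6 h α e hα he hJ B hB
  have h2 : (2 : K) ≠ 0 := by
    have h2k : (2 : k) ≠ 0 := by
      intro h0
      apply h6
      have : (6 : k) = 2 * 3 := by norm_num
      rw [this, h0, zero_mul]
    have h2p : (2 : k[X]) ≠ 0 := by
      intro h0
      apply h2k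
      have := congrArg (fun p : k[X] => p.coeff 0) h0
      simpa using this
    have : (2 : K) = algebraMap k[X] K 2 := (map_ofNat (algebraMap k[X] K) 2).symm
    rw [this]
    intro h0
    exact h2p ((IsFractionRing.injective k[X] K) (by rw [h0, map_zero]))
  -- the basis
  let f : Module.Basis (Fin 3) K L := basisOfLinearIndependentOfCardEqFinrank he
    (by rw [h.rank]; rfl)
  have hf : ∀ i, f i = e i := fun i => by
    simp [f, coe_basisOfLinearIndependentOfCardEqFinrank]
  -- the matrix of the multiplication by `θ`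
  let T : Fin 3 → Fin 3 → K := fun i j => f.repr (θ * e j) i
  have hT : ∀ j, θ * e j = T 0 j • e 0 + T 1 j • e 1 + T 2 j • e 2 := by
    intro j
    have := f.sum_repr (θ * e j)
    rw [Fin.sum_univ_three, hf, hf, hf] at this
    exact this.symm
  have hBT : ∀ j l, B j l = T 0 j * (!![0, 0, 1; 0, 1, 0; 1, 0, 0] : Matrix (Fin 3) (Fin 3) K) 0 l
      + T 1 j * (!![0, 0, 1; 0, 1, 0; 1, 0, 0] : Matrix (Fin 3) (Fin 3) K) 1 l
      + T 2 j * (!![0, 0, 1; 0, 1, 0; 1, 0, 0] : Matrix (Fin 3) (Fin 3) K) 2 l := by
    intro j l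
    rw [← hB, ← co_theta, ← hJ, ← hJ, ← hJ]
    have e1 : θ * (e j * e l / α) = T 0 j • (e 0 * e l / α) + T 1 j • (e 1 * e l / α) +
        T 2 j • (e 2 * e l / α) := by
      have e2 : θ * (e j * e l / α) = (θ * e j) * (e l / α) := by ring
      rw [e2, hT j]
      simp only [Algebra.smul_def]
      ring
    rw [e1]
    simp only [map_add, map_smul, smul_eq_mul]
  have hsym : ∀ i j, B i j = B j i := by
    intro i j
    rw [← hB, ← hB, mul_comm (e i) (e j)]
  have T0 : ∀ j, T 0 j = B j 2 := by intro j; rw [hBT]; simp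
  have T1 : ∀ j, T 1 j = B j 1 := by intro j; rw [hBT]; simp
  have T2 : ∀ j, T 2 j = B j 0 := by intro j; rw [hBT]; simp
  -- the determinants
  have hdet : ∀ x : K, Algebra.norm K (algebraMap K L x - θ) =
      (x - T 0 0) * ((x - T 1 1) * (x - T 2 2) - T 1 2 * T 2 1)
      + T 0 1 * (-T 1 0 * (x - T 2 2) - T 1 2 * T 2 0)
      - T 0 2 * (T 1 0 * T 2 1 + (x - T 1 1) * T 2 0) := by
    intro x
    rw [Algebra.norm_eq_matrix_det f, Matrix.det_fin_three]
    have c : ∀ i j, Algebra.leftMulMatrix f (algebraMap K L x - θ) i j =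
        (if i = j then x else 0) - T i j := by
      intro i j
      rw [Algebra.leftMulMatrix_eq_repr_mul, sub_mul, map_sub, Finsupp.sub_apply, hf,
        ← Algebra.smul_def, map_smul, ← hf, Module.Basis.repr_self, hf]
      simp only [T, Finsupp.smul_apply, smul_eq_mul]
      congr 1
      by_cases hij : i = j
      · subst hij; simp
      · rw [if_neg hij, Finsupp.single_eq_of_ne (by simpa using hij)]; simp
    simp only [c]
    simp
    ring
  have d0 := (hdet 0).symm.trans (det_one h 0)
  have d1 := (hdet 1).symm.trans (det_one h 1)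
  have d2 := (hdet (-1)).symm.trans (det_one h (-1))
  simp only [T0, T1, T2] at d0 d1 d2
  rw [hsym 1 0, hsym 2 0, hsym 2 1] at d0 d1 d2
  have t0 : B 1 1 = -2 * B 0 2 := by
    apply mul_left_cancel₀ h2
    linear_combination 2 * d0 - d1 - d2
  refine ⟨t0, ?_, ?_⟩
  · simp only [chA]
    apply mul_left_cancel₀ h2
    rw [t0] at d0 d1 d2
    linear_combination d1 - d2
  · simp only [chB]
    rw [t0] at d0
    linear_combination d0

end Pool.Agent.N279.PP
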